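import Mathlib

set_option autoImplicit false

open MeasureTheory ProbabilityTheory Filter Topology

namespace Pool.Agent.H393Z.RW

/-- Sites of the lattice. -/
abbrev Site (d : ℕ) := Fin d → ℤ

/-- The unit arrow `± e_i` coded by `(i, sign)`. -/
def vec {d : ℕ} (a : Fin d × Bool) : Site d := Pi.single a.1 (if a.2 then 1 else -1)

/-- Environments: an arrow at each site. -/
abbrev Env (d : ℕ) := Site d → Fin d × Bool

/-- The law of the environment: independent arrows, uniform on the `2d` unit vectors. -/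
noncomputable def law (d : ℕ) : Measure (Env d) :=
  Measure.infinitePi fun _ : Site d => uniformOn (Set.univ : Set (Fin d × Bool))

open Classical in
/-- The transition probabilities `p(x, z, ω)`. -/
noncomputable def trans {d : ℕ} (ε : ℝ) (ω : Env d) (x z : Site d) : ℝ :=
  if x - z = vec (ω x) then 1 - (2 * d - 1) * ε else if ∃ a, x - z = vec a then ε else 0

open Classical in
/-- The quenched kernel `p_ω(n, x) = P^0_ω(X_n = x)`. -/
noncomputable def kern {d : ℕ} (ε : ℝ) (ω : Env d) : ℕ → Site d → ℝ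
  | 0, z => if z = 0 then 1 else 0
  | n + 1, z => ∑' x : Site d, kern ε ω n x * trans ε ω x z

/-- The averaged kernel `m_1(n, x)`. -/
noncomputable def avg (d : ℕ) (ε : ℝ) (n : ℕ) (x : Site d) : ℝ := ∫ ω, kern ε ω n x ∂(law d)

/-- Condition (ii) in the definition of homogenization. -/
def CondTwo (d : ℕ) (ε : ℝ) : Prop :=
  ∀ C : ℝ, 0 < C → ∀ δ : ℝ, 0 < δ →
    Tendsto (fun n : ℕ => ⨆ (x : Site d)
        (_ : Real.sqrt (∑ i, (x i : ℝ) ^ 2) ≤ C * Real.sqrt n ∧ 0 < avg d ε n x),
        law d {ω | δ < |kern ε ω n x / avg d ε n x - 1|}) atTop (𝓝 0)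

end Pool.Agent.H393Z.RW
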