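import Pool.Agent.H393Z.RW.Defs

set_option autoImplicit false

open MeasureTheory ProbabilityTheory Filter Topology

namespace Pool.Agent.H393Z.RW

variable {d : ℕ}

lemma vec_ne_zero (a : Fin d × Bool) : vec a ≠ 0 := by
  intro h
  have := congrFun h a.1
  cases hb : a.2 <;> simp [vec, hb] at this

lemma vec_neg (a : Fin d × Bool) : vec (a.1, !a.2) = - vec a := by
  funext i
  by_cases h : i = a.1
  · subst h
    cases hb : a.2 <;> simp [vec, hb]
  · simp [vec, h]

lemma vec_inj : Function.Injective (vec : Fin d × Bool → Site d) := by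
  rintro ⟨i, b⟩ ⟨j, c⟩ h
  have h1 := congrFun h i
  by_cases hij : i = j
  · subst hij
    cases b <;> cases c <;> simp [vec] at h1 ⊢
  · cases b <;> simp [vec, hij] at h1

lemma kern_succ (ε : ℝ) (ω : Env d) (n : ℕ) (z : Site d) :
    kern ε ω (n + 1) z = ∑ a : Fin d × Bool, kern ε ω n (z + vec a) * trans ε ω (z + vec a) z := by
  classical
  rw [kern, tsum_eq_sum (s := Finset.univ.image fun a : Fin d × Bool => z + vec a)]
  · rw [Finset.sum_image]
    intro a _ b _ h
    exact vec_inj (add_left_cancel h)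
  · intro x hx
    have h1 : ¬ ∃ a, x - z = vec a := by
      rintro ⟨a, ha⟩
      exact hx (Finset.mem_image.2 ⟨a, Finset.mem_univ _, by rw [← ha]; abel⟩)
    have h2 : x - z ≠ vec (ω x) := fun h => h1 ⟨_, h⟩
    simp [trans, h1, h2]

lemma trans_nb (ε : ℝ) (ω : Env d) (z : Site d) (a : Fin d × Bool) :
    trans ε ω (z + vec a) z = if ω (z + vec a) = a then 1 - (2 * d - 1) * ε else ε := by
  have h : z + vec a - z = vec a := by abel
  unfold trans
  rw [h]
  by_cases h1 : ω (z + vec a) = a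
  · simp [h1]
  · have : vec a ≠ vec (ω (z + vec a)) := fun h' => h1 (vec_inj h').symm
    rw [if_neg this, if_pos ⟨a, rfl⟩, if_neg h1]

section
variable {ε : ℝ} (hε : 0 < ε) (hlt : ε < 1 - (2 * d - 1) * ε) (hd : 1 ≤ d)
include hε hlt

lemma trans_nb_ge (ω : Env d) (z : Site d) (a : Fin d × Bool) : ε ≤ trans ε ω (z + vec a) z := by
  rw [trans_nb]; split_ifs
  · exact hlt.le
  · exact le_rfl

lemma kern_nonneg (ω : Env d) (n : ℕ) (z : Site d) : 0 ≤ kern ε ω n z := by
  induction n generalizing z with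
  | zero => unfold kern; split_ifs <;> norm_num
  | succ n ih =>
    rw [kern_succ]
    exact Finset.sum_nonneg fun a _ => mul_nonneg (ih _) (hε.le.trans (trans_nb_ge hε hlt ω z a))

lemma kern_step (ω : Env d) (n : ℕ) (z : Site d) (a : Fin d × Bool) :
    kern ε ω n (z + vec a) * ε ≤ kern ε ω (n + 1) z := by
  rw [kern_succ]
  refine le_trans ?_ (Finset.single_le_sum (f := fun a : Fin d × Bool =>
    kern ε ω n (z + vec a) * trans ε ω (z + vec a) z) (fun b _ => mul_nonneg
      (kern_nonneg hε hlt ω n _) (hε.le.trans (trans_nb_ge hε hlt ω z b))) (Finset.mem_univ a))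
  exact mul_le_mul_of_nonneg_left (trans_nb_ge hε hlt ω z a) (kern_nonneg hε hlt ω n _)

include hd in
lemma kern_lower (ω : Env d) (k : ℕ) :
    ε ^ (2 * k) ≤ kern ε ω (2 * k) 0 ∧ ∀ a, ε ^ (2 * k + 1) ≤ kern ε ω (2 * k + 1) (vec a) := by
  have step : ∀ m, ε ^ m ≤ kern ε ω m 0 → ∀ a, ε ^ (m + 1) ≤ kern ε ω (m + 1) (vec a) := by
    intro m hm a
    have := kern_step hε hlt ω m (vec a) (a.1, !a.2)
    rw [vec_neg, add_neg_cancel] at this
    rw [pow_succ]
    exact (mul_le_mul_of_nonneg_right hm hε.le).trans this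
  induction k with
  | zero =>
    have : ε ^ (2 * 0) ≤ kern ε ω (2 * 0) 0 := by simp [kern]
    exact ⟨this, step _ this⟩
  | succ k ih =>
    have : ε ^ (2 * (k + 1)) ≤ kern ε ω (2 * (k + 1)) 0 := by
      have h := kern_step hε hlt ω (2 * k + 1) 0 (⟨0, hd⟩, true)
      rw [zero_add] at h
      have e : 2 * (k + 1) = 2 * k + 1 + 1 := by ring
      rw [e, pow_succ]
      exact (mul_le_mul_of_nonneg_right (ih.2 _) hε.le).trans h
    exact ⟨this, step _ this⟩

include hd in
lemma kern_le (ω : Env d) (n : ℕ) (z : Site d) : kern ε ω n z ≤ (2 * d) ^ n := by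
  induction n generalizing z with
  | zero => unfold kern; split_ifs <;> norm_num
  | succ n ih =>
    rw [kern_succ]
    have hd' : (1 : ℝ) ≤ d := by exact_mod_cast hd
    have : ∀ a ∈ (Finset.univ : Finset (Fin d × Bool)),
        kern ε ω n (z + vec a) * trans ε ω (z + vec a) z ≤ (2 * d) ^ n := by
      intro a _
      have h1 : trans ε ω (z + vec a) z ≤ 1 := by
        rw [trans_nb]; split_ifs <;> nlinarith
      exact (mul_le_of_le_one_right (kern_nonneg hε hlt ω n _) h1).trans (ih _)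
    refine (Finset.sum_le_card_nsmul _ _ _ this).trans (le_of_eq ?_)
    simp [pow_succ]; ring
end

lemma kern_meas (ε : ℝ) (n : ℕ) (z : Site d) : Measurable fun ω : Env d => kern ε ω n z := by
  induction n generalizing z with
  | zero => simp only [kern]; exact measurable_const
  | succ n ih =>
    simp only [kern_succ, trans_nb]
    refine Finset.measurable_sum _ fun a _ => (ih _).mul ?_
    have : Measurable fun b : Fin d × Bool => if b = a then 1 - (2 * d - 1) * ε else ε :=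
      measurable_of_countable _
    exact this.comp (measurable_pi_apply (z + vec a))

lemma law_prob (hd : 1 ≤ d) : IsProbabilityMeasure (law d) := by
  have : Nonempty (Fin d × Bool) := ⟨(⟨0, hd⟩, true)⟩
  unfold law
  infer_instance

lemma law_cyl_pos (hd : 1 ≤ d) (s : Finset (Site d)) (g : Site d → Fin d × Bool) :
    0 < law d {ω | ∀ y ∈ s, ω y = g y} := by
  have : Nonempty (Fin d × Bool) := ⟨(⟨0, hd⟩, true)⟩
  have e : {ω : Env d | ∀ y ∈ s, ω y = g y} = Set.pi s fun y => {g y} := by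
    ext ω; simp
  rw [e, law, Measure.infinitePi_pi _ fun _ _ => measurableSet_singleton _]
  rw [pos_iff_ne_zero, Finset.prod_ne_zero_iff]
  intro y _
  rw [Ne, uniformOn_eq_zero_iff Set.finite_univ]
  simp

lemma avg_pos {ε : ℝ} (hε : 0 < ε) (hlt : ε < 1 - (2 * d - 1) * ε) (hd : 1 ≤ d) (n : ℕ)
    (z : Site d) (h : ∀ ω : Env d, ε ^ n ≤ kern ε ω n z) : 0 < avg d ε n z := by
  have := law_prob hd
  have hint : Integrable (fun ω : Env d => kern ε ω n z) (law d) := by
    refine Integrable.of_bound (kern_meas ε n z).aestronglyMeasurable ((2 * d) ^ n)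
      (Eventually.of_forall fun ω => ?_)
    rw [Real.norm_eq_abs, abs_of_nonneg (kern_nonneg hε hlt ω n z)]
    exact kern_le hε hlt hd ω n z
  have h2 : ∫ _ : Env d, ε ^ n ∂(law d) ≤ avg d ε n z :=
    integral_mono (integrable_const _) hint h
  rw [integral_const] at h2
  simp only [probReal_univ, smul_eq_mul, one_mul] at h2
  exact lt_of_lt_of_le (pow_pos hε n) h2

theorem not_condTwo (hd : 1 ≤ d) {ε : ℝ} (hε : 0 < ε) (hε' : ε < 1 / (2 * d)) :
    ¬ CondTwo d ε := by
  classical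
  intro H
  have hd' : (1 : ℝ) ≤ d := by exact_mod_cast hd
  have hlt : ε < 1 - (2 * d - 1) * ε := by
    rw [lt_div_iff₀ (by linarith)] at hε'
    linarith
  set α : ℝ := 1 - (2 * d - 1) * ε with hα
  -- choice of the tolerance
  obtain ⟨δ, hδ0, hδ1, hδ⟩ : ∃ δ : ℝ, 0 < δ ∧ δ < 1 ∧ ε * (1 + δ) ^ 2 < α * (1 - δ) ^ 2 := by
    have hc : Continuous fun δ : ℝ => α * (1 - δ) ^ 2 - ε * (1 + δ) ^ 2 := by fun_prop
    have h0 : ∀ᶠ δ in 𝓝 (0 : ℝ), 0 < α * (1 - δ) ^ 2 - ε * (1 + δ) ^ 2 :=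
      hc.continuousAt.eventually (lt_mem_nhds (by simpa using hlt))
    have h1 : ∀ᶠ δ in 𝓝 (0 : ℝ), δ < 1 := gt_mem_nhds one_pos
    obtain ⟨δ, h2, h3⟩ := (((h0.and h1).filter_mono nhdsWithin_le_nhds).and
      (self_mem_nhdsWithin (s := Set.Ioi (0 : ℝ)))).exists
    exact ⟨δ, h3, h2.2, by linarith [h2.1]⟩
  let s : Finset (Site d) := Finset.univ.image vec
  let inv : Site d → Fin d × Bool := fun y =>
    if h : ∃ a, vec a = y then h.choose else (⟨0, hd⟩, true)
  have hinv : ∀ a, inv (vec a) = a := by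
    intro a
    have h : ∃ b, vec b = vec a := ⟨a, rfl⟩
    simp only [inv, dif_pos h]
    exact vec_inj h.choose_spec
  set A := {ω : Env d | ∀ y ∈ s, ω y = inv y} with hA
  set B := {ω : Env d | ∀ y ∈ s, ω y = ((inv y).1, !(inv y).2)} with hB
  have hApos : 0 < law d A := law_cyl_pos hd s _
  have hBpos : 0 < law d B := law_cyl_pos hd s _
  let F : ℕ → ENNReal := fun n : ℕ => ⨆ (x : Site d)
        (_ : Real.sqrt (∑ i, (x i : ℝ) ^ 2) ≤ 1 * Real.sqrt n ∧ 0 < avg d ε n x),
        law d {ω | δ < |kern ε ω n x / avg d ε n x - 1|}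
  have hF : Tendsto F atTop (𝓝 0) := H 1 one_pos δ hδ0
  have h1 : Tendsto (fun k : ℕ => F (2 * k + 1)) atTop (𝓝 0) :=
    hF.comp (tendsto_atTop_mono (fun k => by simp only [id]; omega) tendsto_id)
  have h2 : Tendsto (fun k : ℕ => F (2 * (k + 1))) atTop (𝓝 0) :=
    hF.comp (tendsto_atTop_mono (fun k => by simp only [id]; omega) tendsto_id)
  have h3 : Tendsto (fun k : ℕ => ∑ _a : Fin d × Bool, F (2 * k + 1) + F (2 * (k + 1))) atTop
      (𝓝 0) := by
    have := (tendsto_finsetSum (Finset.univ : Finset (Fin d × Bool)) fun _ _ => h1).add h2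
    simpa using this
  obtain ⟨k, hk⟩ := (h3.eventually (gt_mem_nhds (lt_min hApos hBpos))).exists
  have hm1 : ∀ a, 0 < avg d ε (2 * k + 1) (vec a) := fun a =>
    avg_pos hε hlt hd _ _ fun ω => (kern_lower hε hlt hd ω k).2 a
  have hm0 : 0 < avg d ε (2 * (k + 1)) 0 :=
    avg_pos hε hlt hd _ _ fun ω => (kern_lower hε hlt hd ω (k + 1)).1
  let bad : Set (Env d) :=
    (⋃ a : Fin d × Bool, {ω | δ < |kern ε ω (2 * k + 1) (vec a) / avg d ε (2 * k + 1) (vec a) - 1|})
      ∪ {ω | δ < |kern ε ω (2 * (k + 1)) 0 / avg d ε (2 * (k + 1)) 0 - 1|}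
  have hbad : law d bad ≤ ∑ _a : Fin d × Bool, F (2 * k + 1) + F (2 * (k + 1)) := by
    refine (measure_union_le _ _).trans (add_le_add ?_ ?_)
    · refine (measure_iUnion_fintype_le _ _).trans (Finset.sum_le_sum fun a _ => ?_)
      refine le_iSup₂_of_le (f := fun (x : Site d)
        (_ : Real.sqrt (∑ i, (x i : ℝ) ^ 2) ≤ 1 * Real.sqrt ((2 * k + 1 : ℕ) : ℝ) ∧
          0 < avg d ε (2 * k + 1) x) =>
        law d {ω | δ < |kern ε ω (2 * k + 1) x / avg d ε (2 * k + 1) x - 1|}) (vec a) ⟨?_, hm1 a⟩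
        le_rfl
      rw [one_mul]
      apply Real.sqrt_le_sqrt
      have : ∑ i, ((vec a i : ℤ) : ℝ) ^ 2 = 1 := by
        rw [Finset.sum_eq_single a.1]
        · cases hb : a.2 <;> simp [vec, hb]
        · intro b _ hb; simp [vec, hb]
        · simp
      rw [this]
      push_cast
      have : (0 : ℝ) ≤ k := Nat.cast_nonneg k
      linarith
    · refine le_iSup₂_of_le (f := fun (x : Site d)
        (_ : Real.sqrt (∑ i, (x i : ℝ) ^ 2) ≤ 1 * Real.sqrt ((2 * (k + 1) : ℕ) : ℝ) ∧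
          0 < avg d ε (2 * (k + 1)) x) =>
        law d {ω | δ < |kern ε ω (2 * (k + 1)) x / avg d ε (2 * (k + 1)) x - 1|}) 0 ⟨?_, hm0⟩
        le_rfl
      simp
  have hex : ∀ S : Set (Env d), min (law d A) (law d B) ≤ law d S → ∃ ω ∈ S, ω ∉ bad := by
    intro S hS
    by_contra h
    push Not at h
    exact absurd ((hS.trans (measure_mono h)).trans hbad) (not_le.2 hk)
  have hgood : ∀ ω, ω ∉ bad → (∀ a, (1 - δ) * avg d ε (2 * k + 1) (vec a) ≤
      kern ε ω (2 * k + 1) (vec a) ∧ kern ε ω (2 * k + 1) (vec a) ≤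
      (1 + δ) * avg d ε (2 * k + 1) (vec a)) ∧
      (1 - δ) * avg d ε (2 * (k + 1)) 0 ≤ kern ε ω (2 * (k + 1)) 0 ∧
      kern ε ω (2 * (k + 1)) 0 ≤ (1 + δ) * avg d ε (2 * (k + 1)) 0 := by
    intro ω hω
    have key : ∀ p m : ℝ, 0 < m → ¬ δ < |p / m - 1| → (1 - δ) * m ≤ p ∧ p ≤ (1 + δ) * m := by
      intro p m hm h
      rw [not_lt, abs_le] at h
      constructor
      · rw [← le_div_iff₀ hm]; linarith [h.1]
      · rw [← div_le_iff₀ hm]; linarith [h.2]
    simp only [bad, Set.mem_union, Set.mem_iUnion, Set.mem_setOf_eq, not_or, not_exists] at hω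
    exact ⟨fun a => key _ _ (hm1 a) (hω.1 a), key _ _ hm0 hω.2⟩
  obtain ⟨ω, hωA, hω⟩ := hex A (min_le_left _ _)
  obtain ⟨ω', hωB, hω'⟩ := hex B (min_le_right _ _)
  obtain ⟨g1, -, g2⟩ := hgood ω hω
  obtain ⟨g3, g4, -⟩ := hgood ω' hω'
  set S := ∑ a : Fin d × Bool, avg d ε (2 * k + 1) (vec a) with hS
  set m := avg d ε (2 * (k + 1)) 0 with hm
  have e : 2 * (k + 1) = 2 * k + 1 + 1 := by ring
  have hα0 : 0 < α := hε.trans hlt
  have i1 : α * ((1 - δ) * S) ≤ (1 + δ) * m := by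
    refine le_trans ?_ g2
    rw [e, kern_succ, hS, Finset.mul_sum, Finset.mul_sum]
    refine Finset.sum_le_sum fun a _ => ?_
    rw [trans_nb, zero_add, hωA _ (Finset.mem_image_of_mem _ (Finset.mem_univ a)), hinv,
      if_pos rfl, mul_comm]
    exact mul_le_mul_of_nonneg_right (g1 a).1 hα0.le
  have i2 : (1 - δ) * m ≤ ε * ((1 + δ) * S) := by
    refine g4.trans ?_
    rw [e, kern_succ, hS, Finset.mul_sum, Finset.mul_sum]
    refine Finset.sum_le_sum fun a _ => ?_
    have hne : ((a.1, !a.2) : Fin d × Bool) ≠ a := by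
      intro h
      have := congrArg Prod.snd h
      simp at this
    rw [trans_nb, zero_add, hωB _ (Finset.mem_image_of_mem _ (Finset.mem_univ a)), hinv,
      if_neg hne, mul_comm ε]
    exact mul_le_mul_of_nonneg_right (g3 a).2 hε.le
  have hSpos : 0 < S := Finset.sum_pos (fun a _ => hm1 a) ⟨(⟨0, hd⟩, true), Finset.mem_univ _⟩
  have j1 := mul_le_mul_of_nonneg_left i1 (sub_nonneg.2 hδ1.le)
  have j2 := mul_le_mul_of_nonneg_left i2 (show 0 ≤ 1 + δ by linarith)
  have j3 := mul_lt_mul_of_pos_right hδ hSpos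
  nlinarith

end Pool.Agent.H393Z.RW
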